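import Pool.Agent.Helper29.PB.Final

/-!
# Three-particle braid groups of sun and pulsar graphs: parts (a), (b), (c)

`Braid s` is the vertex group, at any base state `s`, of the fundamental groupoid of Swiatkowski's
cube complex for three particles (a deformation retract of the unordered configuration space).

* Sun graphs: always free, never one-ended, never a surface group.
* Pulsar graph with `m ≥ 2` parallel edges and `r`, `s` arcs at its two vertices: free iff `m ≤ 3`;
  one-ended iff `m ≥ 4` and `r = s = 0`; a surface group iff `m = 4` and `r = s = 0`.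
-/

namespace Pool.Agent.Results.MP_c3fa39_al.Classification

open Pool.Agent.Helper29.PB Pool.Agent.Helper29.PB.HGraph

theorem result :
    (∀ (K N : ℕ) [NeZero K] (b : Fin N → Fin K) (s : (sun K N b).State 3),
      IsFreeGroup (Braid s) ∧ ¬ OneEnded (Braid s) ∧ ¬ IsSurfaceGroup (Braid s)) ∧
    ∀ (r m s : ℕ) (t : (pulsar r m s).State 3), 2 ≤ m →
      (IsFreeGroup (Braid t) ↔ m ≤ 3) ∧
      (OneEnded (Braid t) ↔ 4 ≤ m ∧ r = 0 ∧ s = 0) ∧
      (IsSurfaceGroup (Braid t) ↔ m = 4 ∧ r = 0 ∧ s = 0) := by
  refine ⟨fun K N _ b s => sun_classification K N b s, ?_⟩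
  intro r m s t hm
  obtain ⟨m', rfl⟩ : ∃ m', m = m' + 1 := ⟨m - 1, by omega⟩
  exact pulsar_classification r m' s (by omega) t

end Pool.Agent.Results.MP_c3fa39_al.Classification
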