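import Pool.Agent.Helper29.PB.FinalB

/-!
# Three-particle braid groups of sun and pulsar graphs: the groups

* The 3-particle braid group of a sun graph is free of rank
  `1 + N + ∑_v (a_v² + ∑_{t < a_v} t (t + 1))`, where `a_v` is the number of arcs at the vertex `v`.
* The 3-particle braid group of the pulsar graph with `m + 1` parallel edges and `r`, `s` arcs at
  its two vertices is the free product of the theta group on `m + 1` letters and a free group of
  rank `pk r m + pk s m`, where `pk r m = C(r, 2) + r m + ∑_{t < r} (t + 1) (t + m)`.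
-/

namespace Pool.Agent.Results.MP_c3fa39_al.Structure

open Pool.Agent.Helper29.PB Pool.Agent.Helper29.PB.HGraph

theorem result :
    (∀ (K N : ℕ) [NeZero K] (b : Fin N → Fin K) (s : (sun K N b).State 3),
      Nonempty (Braid s ≃* FreeGroup (Fin (sunRank b)))) ∧
    ∀ (r m s : ℕ) (t : (pulsar r (m + 1) s).State 3),
      Nonempty (Braid t ≃* Monoid.Coprod (ThetaGroup (Fin (m + 1)) 0)
        (FreeGroup (Fin (pk r m + pk s m)))) :=
  ⟨fun K N _ b s => sun_rank K N b s, fun r m s t => pulsar_rank r m s t⟩

end Pool.Agent.Results.MP_c3fa39_al.Structure
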